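import Pool.Agent.Run7.h465.BN.Basic

/-!
SUBSET SUM with numbers in binary is NP-hard.
-/

namespace Pool.Agent.Run7.h465.SS

open Pool.Agent.H38.NP BN

/-- The admissible instances `(a, B, C)`: `a` is a nonempty list of positive numbers of sum
`B + C`. -/
def Ok (I : List Bin × Bin × Bin) : Prop :=
  I.1 ≠ [] ∧ (∀ x ∈ I.1, 0 < x.val) ∧ (I.1.map Bin.val).sum = I.2.1.val + I.2.2.val

/-- Some of the numbers have the sum `B`. -/
def SubsetSum (I : List Bin × Bin × Bin) : Prop :=
  ∃ f : ℕ → Bool, ∑ j ∈ Finset.range I.1.length,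
    (if f j then (I.1.getD j ⟨0⟩).val else 0) = I.2.1.val

/-! ### digits -/

theorem digits_unique (k : ℕ) (f g : ℕ → ℕ) (hf : ∀ i < k, f i < 8) (hg : ∀ i < k, g i < 8)
    (h : ∑ i ∈ Finset.range k, f i * 8 ^ i = ∑ i ∈ Finset.range k, g i * 8 ^ i) :
    ∀ i < k, f i = g i := by
  induction k generalizing f g with
  | zero => intro i hi; omega
  | succ k ih =>
    rw [Finset.sum_range_succ', Finset.sum_range_succ'] at h
    have e : ∀ F : ℕ → ℕ, ∑ i ∈ Finset.range k, F (i + 1) * 8 ^ (i + 1) =
        8 * ∑ i ∈ Finset.range k, F (i + 1) * 8 ^ i := by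
      intro F; rw [Finset.mul_sum]; refine Finset.sum_congr rfl fun i _ => ?_; ring
    rw [e f, e g] at h
    have h0 := hf 0 (by omega)
    have h0' := hg 0 (by omega)
    simp only [pow_zero, mul_one] at h
    have h1 : f 0 = g 0 := by omega
    have h2 := ih (fun i => f (i + 1)) (fun i => g (i + 1)) (fun i hi => hf _ (by omega))
      (fun i hi => hg _ (by omega)) (by omega)
    intro i hi
    cases i with
    | zero => exact h1
    | succ i => exact h2 i (by omega)

/-- three bits -/
def bits3 (d : ℕ) : List Bool := [decide (d % 2 = 1), decide (d / 2 % 2 = 1), decide (d / 4 % 2 = 1)]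

theorem val_bits3 {d : ℕ} (h : d < 8) : val (bits3 d) = d := by
  interval_cases d <;> rfl

theorem val_digits (k : ℕ) (f : ℕ → ℕ) (hf : ∀ i < k, f i < 8) :
    val ((List.range k).flatMap fun i => bits3 (f i)) = ∑ i ∈ Finset.range k, f i * 8 ^ i ∧
    ((List.range k).flatMap fun i => bits3 (f i)).length = 3 * k := by
  induction k with
  | zero => simp
  | succ k ih =>
    obtain ⟨h1, h2⟩ := ih fun i hi => hf i (by omega)
    rw [List.range_succ, List.flatMap_append, val_append, h1, h2, Finset.sum_range_succ,
      List.length_append, h2]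
    refine ⟨?_, ?_⟩
    · simp only [List.flatMap_cons, List.flatMap_nil, List.append_nil]
      rw [val_bits3 (hf k (by omega)), pow_mul]
      norm_num
      ring
    · simp [bits3]; ring

/-! ### list sums -/

theorem sum_getD {β : Type} (l : List β) (d : β) (F : β → ℕ) :
    ∑ j ∈ Finset.range l.length, F (l.getD j d) = (l.map F).sum := by
  induction l with
  | nil => simp
  | cons x l ih =>
    rw [List.length_cons, Finset.sum_range_succ']
    simp only [List.getD_cons_succ, List.getD_cons_zero, List.map_cons, List.sum_cons]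
    rw [ih]; ring

theorem sum_two {β : Type} (n : ℕ) (p q : ℕ → β) (F : β → ℕ) :
    (((List.range n).flatMap fun j => [p j, q j]).map F).sum =
      ∑ j ∈ Finset.range n, (F (p j) + F (q j)) := by
  induction n with
  | zero => simp
  | succ n ih =>
    rw [List.range_succ, List.flatMap_append, List.map_append, List.sum_append, ih,
      Finset.sum_range_succ]
    simp

theorem sum_digits {β : Type} (l : List β) (k : ℕ) (d : β → ℕ → ℕ) :
    (l.map fun x => ∑ i ∈ Finset.range k, d x i * 8 ^ i).sum =
      ∑ i ∈ Finset.range k, (l.map fun x => d x i).sum * 8 ^ i := by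
  induction l with
  | nil => simp
  | cons x l ih =>
    simp only [List.map_cons, List.sum_cons, ih, add_mul, Finset.sum_add_distrib]

/-! ### the reduction -/

abbrev Cl := Lit × Lit × Lit

/-- a bound for the variables -/
def nv (φ : List Cl) : ℕ := (φ.map fun c => c.1.1 + c.2.1.1 + c.2.2.1).sum + 1

/-- number of occurrences of a literal in a clause -/
def cnt (c : Cl) (l : Lit) : ℕ :=
  (if c.1 = l then 1 else 0) + (if c.2.1 = l then 1 else 0) + (if c.2.2 = l then 1 else 0)

def dfl : Cl := ((0, true), (0, true), (0, true))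

/-- the digits of the number with tag `x` -/
def dg (φ : List Cl) (x : ℕ × ℕ) (i : ℕ) : ℕ :=
  if x.1 ≤ 1 then (if i < nv φ then (if i = x.2 then 1 else 0) else
    cnt (φ.getD (i - nv φ) dfl) (x.2, decide (x.1 = 0)))
  else (if i = nv φ + x.2 then x.1 - 1 else 0)

/-- the tags: `(0, j)` and `(1, j)` for the literals, `(2, c)` and `(3, c)` for the slack -/
def tags (φ : List Cl) : List (ℕ × ℕ) :=
  ((List.range (nv φ)).flatMap fun j => [(0, j), (1, j)]) ++
  ((List.range φ.length).flatMap fun j => [(2, j), (3, j)])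

def bnum (k : ℕ) (f : ℕ → ℕ) : Bin := ⟨val ((List.range k).flatMap fun i => bits3 (f i))⟩

def inst (φ : List Cl) : List Bin × Bin × Bin :=
  ((tags φ).map (fun x => bnum (nv φ + φ.length) (dg φ x)),
    bnum (nv φ + φ.length) (fun i => if i < nv φ then 1 else 4),
    bnum (nv φ + φ.length) (fun i => if i < nv φ then 1 else 2))

theorem pt_nv {α : Type} [Enc α] {φ : α → List Cl} (h : PT φ) : PT fun a => nv (φ a) := by
  unfold nv; fun_prop

theorem pt_inst : PT inst := by
  have h0 : PT fun φ : List Cl => nv φ := pt_nv PT.id'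
  have hk : PT fun φ : List Cl => nv φ + φ.length := by fun_prop
  have ht : PT fun φ : List Cl => tags φ := by unfold tags; fun_prop
  have hd : PT fun p : (List Cl × (ℕ × ℕ)) × ℕ => dg p.1.1 p.1.2 p.2 := by
    have h1 : PT fun p : (List Cl × (ℕ × ℕ)) × ℕ => nv p.1.1 :=
      h0.comp (g := fun p : (List Cl × (ℕ × ℕ)) × ℕ => p.1.1) (by fun_prop)
    unfold dg cnt; fun_prop
  have hb : PT bits3 := by unfold bits3; fun_prop
  have hx : PT fun p : List Cl × (ℕ × ℕ) => bnum (nv p.1 + p.1.length) (dg p.1 p.2) := by
    unfold bnum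
    refine pt_ofBits (PT.flatMap (f := fun (p : List Cl × (ℕ × ℕ)) i => bits3 (dg p.1 p.2 i))
      (hb.comp hd) (PT.range ?_))
    exact hk.comp (g := fun p : List Cl × (ℕ × ℕ) => p.1) (by fun_prop)
  have hB : ∀ u v : ℕ, PT fun φ : List Cl =>
      bnum (nv φ + φ.length) (fun i => if i < nv φ then u else v) := by
    intro u v
    unfold bnum
    refine pt_ofBits (PT.flatMap (f := fun (φ : List Cl) i => bits3 (if i < nv φ then u else v))
      (hb.comp ?_) (PT.range hk))
    have h1 : PT fun p : List Cl × ℕ => nv p.1 :=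
      h0.comp (g := fun p : List Cl × ℕ => p.1) (by fun_prop)
    fun_prop
  unfold inst
  exact (PT.map (f := fun φ x => bnum (nv φ + φ.length) (dg φ x)) hx ht).mk ((hB 1 4).mk (hB 1 2))

theorem cnt_le (c : Cl) (l : Lit) : cnt c l ≤ 3 := by
  unfold cnt; split_ifs <;> omega

theorem dg_lt (φ : List Cl) (x : ℕ × ℕ) (hx : x.1 ≤ 3) (i : ℕ) : dg φ x i < 8 := by
  unfold dg
  split_ifs
  · omega
  · omega
  · have := cnt_le (φ.getD (i - nv φ) dfl) (x.2, decide (x.1 = 0)); omega
  · omega
  · omega

theorem mem_tags {φ : List Cl} {x : ℕ × ℕ} (h : x ∈ tags φ) : x.1 ≤ 3 := by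
  unfold tags at h
  simp only [List.mem_append, List.mem_flatMap, List.mem_range, List.mem_cons,
    List.not_mem_nil, or_false] at h
  rcases h with ⟨j, _, rfl | rfl⟩ | ⟨j, _, rfl | rfl⟩ <;> simp

theorem val_bnum (k : ℕ) (f : ℕ → ℕ) (hf : ∀ i < k, f i < 8) :
    (bnum k f).val = ∑ i ∈ Finset.range k, f i * 8 ^ i := (val_digits k f hf).1

theorem lt_nv {φ : List Cl} {c : Cl} (h : c ∈ φ) : c.1.1 < nv φ ∧ c.2.1.1 < nv φ ∧ c.2.2.1 < nv φ := by
  have : c.1.1 + c.2.1.1 + c.2.2.1 ≤ (φ.map fun c => c.1.1 + c.2.1.1 + c.2.2.1).sum :=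
    List.single_le_sum (fun _ _ => Nat.zero_le _) _ (List.mem_map.2 ⟨c, h, rfl⟩)
  unfold nv; omega

/-- the number of true literals of a clause -/
def tr (a : ℕ → Bool) (c : Cl) : ℕ :=
  (if a c.1.1 = c.1.2 then 1 else 0) + (if a c.2.1.1 = c.2.1.2 then 1 else 0) +
    (if a c.2.2.1 = c.2.2.2 then 1 else 0)

theorem sum_lit (n : ℕ) (a : ℕ → Bool) (l : Lit) (h : l.1 < n) :
    ∑ j ∈ Finset.range n, ((if a j then (if l = (j, true) then 1 else 0) else 0) +
      (if a j then 0 else (if l = (j, false) then 1 else 0))) =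
      if a l.1 = l.2 then 1 else 0 := by
  obtain ⟨v, b⟩ := l
  simp only at h
  rw [Finset.sum_eq_single v]
  · cases b <;> cases hv : a v <;> simp [hv]
  · intro j _ hj
    have h1 : ∀ b' : Bool, ((v, b) : Lit) ≠ (j, b') := by
      intro b' e; exact hj (congrArg Prod.fst e).symm
    simp [h1]
  · intro h'; exact absurd (Finset.mem_range.2 h) h'

theorem sum_cnt (n : ℕ) (a : ℕ → Bool) (c : Cl) (h1 : c.1.1 < n) (h2 : c.2.1.1 < n)
    (h3 : c.2.2.1 < n) :
    ∑ j ∈ Finset.range n, ((if a j then cnt c (j, true) else 0) +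
      (if a j then 0 else cnt c (j, false))) = tr a c := by
  unfold tr
  rw [← sum_lit n a c.1 h1, ← sum_lit n a c.2.1 h2, ← sum_lit n a c.2.2 h3,
    ← Finset.sum_add_distrib, ← Finset.sum_add_distrib]
  refine Finset.sum_congr rfl fun j _ => ?_
  unfold cnt
  split_ifs <;> simp

theorem sum_cnt_all (n : ℕ) (c : Cl) (h1 : c.1.1 < n) (h2 : c.2.1.1 < n)
    (h3 : c.2.2.1 < n) :
    ∑ j ∈ Finset.range n, (cnt c (j, true) + cnt c (j, false)) = 3 := by
  have e1 := sum_cnt n (fun _ => true) c h1 h2 h3
  have e2 := sum_cnt n (fun _ => false) c h1 h2 h3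
  simp only [if_true, Bool.false_eq_true, if_false, Nat.add_zero, Nat.zero_add] at e1 e2
  rw [Finset.sum_add_distrib, e1, e2]
  unfold tr
  rcases c with ⟨⟨v1, b1⟩, ⟨v2, b2⟩, ⟨v3, b3⟩⟩
  cases b1 <;> cases b2 <;> cases b3 <;> simp

/-- the digit sums of a selection -/
theorem sel_digit (φ : List Cl) (g : ℕ × ℕ → Bool) (i : ℕ) (hi : i < nv φ + φ.length) :
    ((tags φ).map fun x => if g x then dg φ x i else 0).sum =
      if i < nv φ then (if g (0, i) then 1 else 0) + (if g (1, i) then 1 else 0)
      else (∑ j ∈ Finset.range (nv φ),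
        ((if g (0, j) then cnt (φ.getD (i - nv φ) dfl) (j, true) else 0) +
          (if g (1, j) then cnt (φ.getD (i - nv φ) dfl) (j, false) else 0))) +
        ((if g (2, i - nv φ) then 1 else 0) + (if g (3, i - nv φ) then 2 else 0)) := by
  unfold tags
  rw [List.map_append, List.sum_append, sum_two, sum_two]
  by_cases h : i < nv φ
  · rw [if_pos h]
    have e1 : ∑ j ∈ Finset.range (nv φ), ((if g (0, j) then dg φ (0, j) i else 0) +
        if g (1, j) then dg φ (1, j) i else 0) =
        (if g (0, i) then 1 else 0) + (if g (1, i) then 1 else 0) := by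
      rw [Finset.sum_eq_single i]
      · simp [dg, h]
      · intro j _ hj
        simp [dg, h, Ne.symm hj]
      · intro h'; exact absurd (Finset.mem_range.2 h) h'
    have e2 : ∑ j ∈ Finset.range φ.length, ((if g (2, j) then dg φ (2, j) i else 0) +
        if g (3, j) then dg φ (3, j) i else 0) = 0 := by
      refine Finset.sum_eq_zero fun j _ => ?_
      have : i ≠ nv φ + j := by omega
      simp [dg, this]
    rw [e1, e2]; rfl
  · rw [if_neg h]
    congr 1
    · refine Finset.sum_congr rfl fun j _ => ?_
      simp [dg, h]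
    · rw [Finset.sum_eq_single (i - nv φ)]
      · have : i = nv φ + (i - nv φ) := by omega
        simp [dg, ← this]
      · intro j _ hj
        have : i ≠ nv φ + j := by omega
        simp [dg, this]
      · intro h'; exact absurd (Finset.mem_range.2 (by omega)) h'

theorem sum_all (φ : List Cl) (i : ℕ) (hi : i < nv φ + φ.length) :
    ((tags φ).map fun x => dg φ x i).sum = if i < nv φ then 2 else 6 := by
  have h := sel_digit φ (fun _ => true) i hi
  simp only [if_true] at h
  rw [h]
  split_ifs with h1
  · rfl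
  · have hm : φ.getD (i - nv φ) dfl ∈ φ := by
      rw [List.getD_eq_getElem _ _ (by omega : i - nv φ < φ.length)]
      exact List.getElem_mem _
    obtain ⟨a1, a2, a3⟩ := lt_nv hm
    rw [sum_cnt_all _ _ a1 a2 a3]

theorem nodup_tags (φ : List Cl) : (tags φ).Nodup := by
  have h : ∀ (s t n : ℕ), s ≠ t → ((List.range n).flatMap fun j => [(s, j), (t, j)]).Nodup := by
    intro s t n hst
    rw [List.nodup_flatMap]
    refine ⟨fun j _ => by simp [hst], ?_⟩
    refine List.Nodup.pairwise_of_forall_ne List.nodup_range fun a _ b _ hab => ?_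
    simp only [Function.onFun, List.disjoint_cons_left, List.mem_cons, Prod.mk.injEq,
      List.not_mem_nil, or_false, not_or, List.disjoint_nil_left, and_true]
    refine ⟨⟨?_, ?_⟩, ?_, ?_⟩ <;> rintro ⟨h1, h2⟩ <;> exact hab (by simpa using h2)
  unfold tags
  rw [List.nodup_append]
  refine ⟨h 0 1 _ (by norm_num), h 2 3 _ (by norm_num), ?_⟩
  intro x hx y hy hxy
  subst hxy
  simp only [List.mem_flatMap, List.mem_range, List.mem_cons, List.not_mem_nil, or_false] at hx hy
  obtain ⟨j, _, rfl | rfl⟩ := hx <;> obtain ⟨k, _, h | h⟩ := hy <;> simp at h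

theorem nph : NPH Ok SubsetSum := by
  refine sat3_nph.reduce inst pt_inst fun φ _ => ?_
  set k := nv φ + φ.length with hk
  have hnum : ∀ x ∈ tags φ, (bnum k (dg φ x)).val = ∑ i ∈ Finset.range k, dg φ x i * 8 ^ i :=
    fun x hx => val_bnum _ _ fun i _ => dg_lt φ x (mem_tags hx) i
  have hB : (bnum k (fun i => if i < nv φ then 1 else 4)).val =
      ∑ i ∈ Finset.range k, (if i < nv φ then 1 else 4) * 8 ^ i :=
    val_bnum _ _ fun i _ => by split_ifs <;> omega
  have hC : (bnum k (fun i => if i < nv φ then 1 else 2)).val =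
      ∑ i ∈ Finset.range k, (if i < nv φ then 1 else 2) * 8 ^ i :=
    val_bnum _ _ fun i _ => by split_ifs <;> omega
  have hsel : ∀ g : ℕ × ℕ → Bool,
      ((tags φ).map fun x => if g x then (bnum k (dg φ x)).val else 0).sum =
      ∑ i ∈ Finset.range k, ((tags φ).map fun x => if g x then dg φ x i else 0).sum * 8 ^ i := by
    intro g
    rw [← sum_digits (tags φ) k (fun x i => if g x then dg φ x i else 0)]
    congr 1
    refine List.map_congr_left fun x hx => ?_
    by_cases h : g x
    · simp [h, hnum x hx]
    · simp [h]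
  refine ⟨⟨?_, ?_, ?_⟩, ?_⟩
  · -- nonempty
    intro h
    have : (tags φ).length = 0 := by
      have := congrArg List.length h
      simpa [inst] using this
    have h0 : (0, 0) ∈ tags φ := by
      unfold tags
      refine List.mem_append_left _ (List.mem_flatMap.2 ⟨0, List.mem_range.2 ?_, by simp⟩)
      unfold nv; omega
    rw [List.length_eq_zero_iff.1 this] at h0
    simp at h0
  · -- positive
    intro y hy
    obtain ⟨x, hx, rfl⟩ := List.mem_map.1 hy
    rw [hnum x hx]
    have hx' := hx
    unfold tags at hx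
    simp only [List.mem_append, List.mem_flatMap, List.mem_range, List.mem_cons,
      List.not_mem_nil, or_false] at hx
    have key : ∀ i < k, 0 < dg φ x i → 0 < ∑ i ∈ Finset.range k, dg φ x i * 8 ^ i := by
      intro i hi h
      refine lt_of_lt_of_le ?_ (Finset.single_le_sum (f := fun i => dg φ x i * 8 ^ i)
        (fun _ _ => Nat.zero_le _) (Finset.mem_range.2 hi))
      positivity
    rcases hx with ⟨j, hj, rfl | rfl⟩ | ⟨j, hj, rfl | rfl⟩
    · exact key j (by omega) (by simp [dg, hj])
    · exact key j (by omega) (by simp [dg, hj])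
    · exact key (nv φ + j) (by omega) (by simp [dg])
    · exact key (nv φ + j) (by omega) (by simp [dg])
  · -- the sum
    have h := hsel fun _ => true
    simp only [if_true] at h
    simp only [inst, List.map_map]
    rw [← hk, hB, hC, ← Finset.sum_add_distrib]
    refine (show _ = _ from h).trans (Finset.sum_congr rfl fun i hi => ?_)
    rw [sum_all φ i (Finset.mem_range.1 hi)]
    split_ifs <;> ring
  · -- equivalence
    have conv : ∀ g : ℕ × ℕ → Bool,
        ((tags φ).map fun x => if g x then (bnum k (dg φ x)).val else 0).sum =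
          (bnum k (fun i => if i < nv φ then 1 else 4)).val ↔
        ∀ i < k, ((tags φ).map fun x => if g x then dg φ x i else 0).sum =
          if i < nv φ then 1 else 4 := by
      intro g
      rw [hsel, hB]
      constructor
      · intro h
        refine digits_unique k _ _ (fun i hi => ?_) (fun i hi => by split_ifs <;> omega) h
        have h1 := sum_all φ i hi
        have h2 : ((tags φ).map fun x => if g x then dg φ x i else 0).sum ≤
            ((tags φ).map fun x => dg φ x i).sum :=
          List.sum_le_sum fun x _ => by split_ifs <;> omega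
        rw [h1] at h2
        split_ifs at h2 <;> omega
      · intro h
        exact Finset.sum_congr rfl fun i hi => by rw [h i (Finset.mem_range.1 hi)]
    constructor
    · rintro ⟨a, ha⟩
      let g : ℕ × ℕ → Bool := fun x =>
        if x.1 = 0 then a x.2 else if x.1 = 1 then !a x.2 else
        if x.1 = 2 then decide (tr a (φ.getD x.2 dfl) ≠ 2) else decide (tr a (φ.getD x.2 dfl) ≠ 3)
      refine ⟨fun j => g ((tags φ).getD j (0, 0)), ?_⟩
      have hlen : (inst φ).1.length = (tags φ).length := by simp [inst]
      rw [hlen]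
      have e : ∀ j ∈ Finset.range (tags φ).length,
          (if g ((tags φ).getD j (0, 0)) then ((inst φ).1.getD j ⟨0⟩).val else 0) =
          (fun x => if g x then (bnum k (dg φ x)).val else 0) ((tags φ).getD j (0, 0)) := by
        intro j hj
        have hj' := Finset.mem_range.1 hj
        have e1 : (tags φ).getD j (0, 0) = (tags φ)[j] := List.getD_eq_getElem _ _ hj'
        rw [e1]
        simp only [inst, ← hk]
        rw [List.getD_eq_getElem _ _ (by simpa using hj'), List.getElem_map]
      rw [Finset.sum_congr rfl e, sum_getD (tags φ) (0, 0)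
        (fun x => if g x then (bnum k (dg φ x)).val else 0)]
      refine (conv g).2 fun i hi => ?_
      rw [sel_digit φ g i hi]
      by_cases h : i < nv φ
      · rw [if_pos h, if_pos h]
        cases ha' : a i <;> simp [g, ha']
      · rw [if_neg h, if_neg h]
        have hm : φ.getD (i - nv φ) dfl ∈ φ := by
          rw [List.getD_eq_getElem _ _ (by omega : i - nv φ < φ.length)]
          exact List.getElem_mem _
        obtain ⟨a1, a2, a3⟩ := lt_nv hm
        have h1 := ha _ hm
        set c := φ.getD (i - nv φ) dfl with hc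
        have e1 : ∑ j ∈ Finset.range (nv φ), ((if g (0, j) then cnt c (j, true) else 0) +
            (if g (1, j) then cnt c (j, false) else 0)) = tr a c := by
          rw [← sum_cnt (nv φ) a c a1 a2 a3]
          refine Finset.sum_congr rfl fun j _ => ?_
          have h0 : g (0, j) = a j := by simp [g]
          have h1 : g (1, j) = !a j := by simp [g]
          rw [h0, h1]
          cases a j <;> simp
        rw [e1]
        have e2 : g (2, i - nv φ) = decide (tr a c ≠ 2) := by simp [g, hc]
        have e3 : g (3, i - nv φ) = decide (tr a c ≠ 3) := by simp [g, hc]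
        rw [e2, e3]
        have h2 : 1 ≤ tr a c ∧ tr a c ≤ 3 := by
          unfold tr
          refine ⟨?_, by split_ifs <;> omega⟩
          rcases h1 with h1 | h1 | h1 <;> rw [if_pos h1] <;> omega
        obtain ⟨h2, h3⟩ := h2
        rcases (by omega : tr a c = 1 ∨ tr a c = 2 ∨ tr a c = 3) with h4 | h4 | h4 <;>
          simp [h4]
    · rintro ⟨f, hf⟩
      let g : ℕ × ℕ → Bool := fun x => f ((tags φ).idxOf x)
      have hlen : (inst φ).1.length = (tags φ).length := by simp [inst]
      have hf' : ((tags φ).map fun x => if g x then (bnum k (dg φ x)).val else 0).sum =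
          (bnum k (fun i => if i < nv φ then 1 else 4)).val := by
        rw [← sum_getD (tags φ) (0, 0) (fun x => if g x then (bnum k (dg φ x)).val else 0)]
        refine Eq.trans (Finset.sum_congr rfl fun j hj => ?_) (hlen ▸ hf)
        have hj' := Finset.mem_range.1 hj
        have e1 : (tags φ).getD j (0, 0) = (tags φ)[j] := List.getD_eq_getElem _ _ hj'
        simp only [g, e1]
        rw [(nodup_tags φ).idxOf_getElem j hj']
        simp only [inst, ← hk]
        rw [List.getD_eq_getElem _ _ (by simpa using hj'), List.getElem_map]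
      have hd := (conv g).1 hf'
      refine ⟨fun j => g (0, j), fun c hc => ?_⟩
      obtain ⟨i, hi, rfl⟩ := List.mem_iff_getElem.1 hc
      have h1 := hd (nv φ + i) (by omega)
      rw [sel_digit φ g (nv φ + i) (by omega), if_neg (show ¬ nv φ + i < nv φ by omega),
        if_neg (show ¬ nv φ + i < nv φ by omega)] at h1
      simp only [Nat.add_sub_cancel_left] at h1
      rw [List.getD_eq_getElem _ _ hi] at h1
      obtain ⟨a1, a2, a3⟩ := lt_nv hc
      have hg1 : ∀ j < nv φ, g (1, j) = !g (0, j) := by
        intro j hj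
        have h2 := hd j (by omega)
        rw [sel_digit φ g j (by omega), if_pos hj, if_pos hj] at h2
        cases h3 : g (0, j) <;> cases h4 : g (1, j) <;> simp [h3, h4] at h2 ⊢
      have e1 : ∑ j ∈ Finset.range (nv φ), ((if g (0, j) then cnt φ[i] (j, true) else 0) +
          (if g (1, j) then cnt φ[i] (j, false) else 0)) = tr (fun j => g (0, j)) φ[i] := by
        rw [← sum_cnt (nv φ) _ φ[i] a1 a2 a3]
        refine Finset.sum_congr rfl fun j hj => ?_
        rw [hg1 j (Finset.mem_range.1 hj)]
        cases g (0, j) <;> simp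
      rw [e1] at h1
      by_contra hcon
      push Not at hcon
      have : tr (fun j => g (0, j)) φ[i] = 0 := by
        unfold tr
        simp [hcon.1, hcon.2.1, hcon.2.2]
      rw [this] at h1
      split_ifs at h1 <;> omega

end Pool.Agent.Run7.h465.SS
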